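import Mathlib

namespace Pool.Agent.Results.MP_887aa5_nt.FailsAtSeven

/-- The Gaussian power sum: the sum of `(a + b i)^n` over `1 ≤ a, b ≤ p - 1`. -/
def gaussPowerSum (p n : ℕ) : GaussianInt :=
  ∑ a ∈ Finset.Icc 1 (p - 1), ∑ b ∈ Finset.Icc 1 (p - 1), (⟨(a : ℤ), (b : ℤ)⟩ : GaussianInt) ^ n

/-- The valuation `min (v_p x) (v_p y)` of `x + y i`, with value `⊤` at zero. -/
noncomputable def gaussVal (p : ℕ) (z : GaussianInt) : ℕ∞ :=
  min (emultiplicity (p : ℤ) z.re) (emultiplicity (p : ℤ) z.im)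

/-- Computable copy of one power, as a pair of integers. -/
def pw (a b : ℤ) : ℕ → ℤ × ℤ
  | 0 => (1, 0)
  | n + 1 => let q := pw a b n; (q.1 * a - q.2 * b, q.1 * b + q.2 * a)

theorem pw_eq (a b : ℤ) (n : ℕ) :
    (⟨a, b⟩ : GaussianInt) ^ n = ⟨(pw a b n).1, (pw a b n).2⟩ := by
  induction n with
  | zero => simp [pw]; rfl
  | succ n ih =>
    rw [pow_succ, ih]
    ext
    · simp [pw]; ring
    · simp [pw]

theorem re_val : (gaussPowerSum 7 30).re = 0 ∧ (gaussPowerSum 7 30).im =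
    -6264101156848215194673755568 := by
  have h : Finset.Icc 1 (7 - 1) = {1, 2, 3, 4, 5, 6} := by decide
  unfold gaussPowerSum
  rw [h]
  simp only [Finset.sum_insert, Finset.mem_insert, Finset.mem_singleton, Finset.sum_singleton,
    pw_eq, Zsqrtd.re_add, Zsqrtd.im_add, not_false_eq_true, OfNat.one_ne_ofNat, OfNat.ofNat_ne_one,
    or_self, Nat.reduceEqDiff]
  constructor <;> decide +kernel

theorem result : ¬ ∀ p : ℕ, p.Prime → p % 4 = 3 → 7 ≤ p → ∀ r : ℕ, 1 ≤ r →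
    (Even r → gaussVal p (gaussPowerSum p (r * (p - 1))) = 0) ∧
    (Odd r → gaussVal p (gaussPowerSum p (r * (p - 1))) = 3) := by
  intro h
  have h1 := (h 7 (by norm_num) (by norm_num) le_rfl 5 (by norm_num)).2 (by decide)
  have h2 : 5 * (7 - 1) = 30 := by norm_num
  rw [h2, gaussVal, re_val.1, re_val.2] at h1
  have h3 : (4 : ℕ∞) ≤ emultiplicity ((7 : ℕ) : ℤ) (0 : ℤ) := by simp
  have h4 : ((4 : ℕ) : ℕ∞) ≤ emultiplicity ((7 : ℕ) : ℤ) (-6264101156848215194673755568 : ℤ) := by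
    rw [← pow_dvd_iff_le_emultiplicity]
    norm_num
  have h5 := le_min h3 h4
  rw [h1] at h5
  exact absurd h5 (by decide)

end Pool.Agent.Results.MP_887aa5_nt.FailsAtSeven
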